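import Pool.Agent.Helper19.HN.St

/-!
# A strongly compact cardinal is a strong limit
-/

namespace Pool.Agent.Helper57.HN.LC

open Ordinal Cardinal ZFSet Order Pool.Agent.Helper73.HODC Pool.Agent.Helper73.HM
open Pool.Agent.Helper73.HE Pool.Agent.Helper73.HU Pool.Agent.Helper19.HN

/-- the filter of complements of sets of size less than `κ` on `κ` extends to a `κ`-complete
ultrafilter; if `κ ≤ 2 ^ μ` this ultrafilter is principal, which is impossible -/
theorem lc_aux (κ : Cardinal.{0}) (reg : κ.IsRegular)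
    (ext : ∀ (I : Type) (F : Filter I), F.NeBot → CardinalInterFilter F κ →
    ∃ U : Ultrafilter I, CardinalInterFilter (U : Filter I) κ ∧ (U : Filter I) ≤ F) :
    ∀ μ < κ, (2 : Cardinal.{0}) ^ μ < κ := by
  intro μ hμ
  by_contra hcon
  have hle : κ ≤ (2 : Cardinal.{0}) ^ μ := not_lt.1 hcon
  have hinj : Nonempty (κ.out ↪ Set μ.out) := by
    have h1 : #(κ.out) ≤ #(Set μ.out) := by
      rw [Cardinal.mk_set, Cardinal.mk_out, Cardinal.mk_out]; exact hle
    exact (Cardinal.le_def _ _).1 h1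
  obtain ⟨f⟩ := hinj
  have hne : (Filter.cocardinal κ.out reg).NeBot := by
    rw [Filter.neBot_iff]
    intro hb
    have h2 : (∅ : Set κ.out) ∈ Filter.cocardinal κ.out reg := by rw [hb]; trivial
    rw [Filter.mem_cocardinal, Set.compl_empty, Cardinal.mk_univ, Cardinal.mk_out] at h2
    exact lt_irrefl _ h2
  obtain ⟨U, hU, hUF⟩ := ext κ.out (Filter.cocardinal κ.out reg) hne inferInstance
  have key : ∀ a : μ.out, {i | (a ∈ f i) ↔ ({i | a ∈ f i} ∈ (U : Filter κ.out))} ∈
      (U : Filter κ.out) := by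
    intro a
    by_cases h : {i | a ∈ f i} ∈ (U : Filter κ.out)
    · refine Filter.mem_of_superset h ?_
      intro i hi
      exact ⟨fun _ => h, fun _ => hi⟩
    · have h' : {i | a ∈ f i}ᶜ ∈ (U : Filter κ.out) := Ultrafilter.compl_mem_iff_notMem.2 h
      refine Filter.mem_of_superset h' ?_
      intro i hi
      exact ⟨fun h3 => absurd h3 hi, fun h3 => absurd h3 h⟩
  have := hU
  have hall : (⋂ a : μ.out, {i | (a ∈ f i) ↔ ({i | a ∈ f i} ∈ (U : Filter κ.out))}) ∈
      (U : Filter κ.out) := by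
    refine (Filter.cardinal_iInter_mem (c := κ) ?_).2 key
    rw [Cardinal.mk_out]; exact hμ
  obtain ⟨i₀, hi₀⟩ := (U.neBot').nonempty_of_mem hall
  have hsing : ({i₀}ᶜ : Set κ.out) ∈ (U : Filter κ.out) :=
    hUF (Filter.eventually_cocardinal_ne (hreg := reg) i₀)
  obtain ⟨j, hj1, hj2⟩ := (U.neBot').nonempty_of_mem (Filter.inter_mem hall hsing)
  apply hj2
  rw [Set.mem_singleton_iff]
  apply f.injective
  apply Set.ext
  intro a
  have e1 : (a ∈ f j) ↔ ({i | a ∈ f i} ∈ (U : Filter κ.out)) := Set.mem_iInter.1 hj1 a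
  have e2 : (a ∈ f i₀) ↔ ({i | a ∈ f i} ∈ (U : Filter κ.out)) := Set.mem_iInter.1 hi₀ a
  exact e1.trans e2.symm

/-- LC: a strongly compact cardinal is a strong limit -/
theorem lc : StLC := fun κ hκ => lc_aux κ hκ.reg hκ.ext

end Pool.Agent.Helper57.HN.LC
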